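import Pool.Agent.N353.PT.Stm

/-!
# Project PT (helper353), MP_a8780a_co: robust strong connectivity (helper129)
-/

set_option autoImplicit false

open Finset
open scoped Classical

namespace Pool.Agent.N129.PT

open Pool.Agent.N353.PT

variable {V : Type}

theorem reach_mono {T : V → V → Prop} {U U' : Finset V} (h : U ⊆ U') {u v : V}
    (hr : Reach T U u v) : Reach T U' u v := by
  unfold Reach at hr ⊢
  induction hr with
  | refl => exact Relation.ReflTransGen.refl
  | tail _ hbc ih => exact Relation.ReflTransGen.tail ih ⟨h hbc.1, h hbc.2.1, hbc.2.2⟩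

/-- among `k` pairwise disjoint sets one is disjoint from a set with fewer than `k` elements -/
theorem exists_disjoint {k : ℕ} (C : Fin k → Finset V) (X : Finset V)
    (hC : ∀ l l', l ≠ l' → Disjoint (C l) (C l')) (hX : X.card < k) : ∃ l, Disjoint (C l) X := by
  by_contra hne
  push Not at hne
  have h1 : ∀ l, ∃ x, x ∈ C l ∧ x ∈ X := fun l => Finset.not_disjoint_iff.mp (hne l)
  choose x hx using h1
  have hinj : Set.InjOn x (univ : Finset (Fin k)) := by
    intro l _ l' _ hll
    by_contra hn
    exact Finset.disjoint_left.mp (hC l l' hn) (hx l).1 (hll ▸ (hx l').1)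
  have h2 := Finset.card_le_card_of_injOn x (s := (univ : Finset (Fin k))) (t := X)
    (fun l _ => (hx l).2) hinj
  rw [Finset.card_univ, Fintype.card_fin] at h2
  omega

theorem t_ROB : S_ROB := by
  intro V T W k A B a b P ρ ρ' hsub hdis hab hsrc hsnk hP h0 hpos h0' hpos' X hX u hu v hv
  obtain ⟨l, hl⟩ := exists_disjoint (fun l => A l ∪ B l ∪ P l) X hdis hX
  have hA : ∀ x ∈ A l, x ∈ W \ X := fun x hx => Finset.mem_sdiff.mpr
    ⟨(hsub l).1 hx, Finset.disjoint_left.mp hl
      (Finset.mem_union_left _ (Finset.mem_union_left _ hx))⟩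
  have hB : ∀ x ∈ B l, x ∈ W \ X := fun x hx => Finset.mem_sdiff.mpr
    ⟨(hsub l).2.1 hx, Finset.disjoint_left.mp hl
      (Finset.mem_union_left _ (Finset.mem_union_right _ hx))⟩
  have hPP : P l ⊆ W \ X := fun x hx => Finset.mem_sdiff.mpr
    ⟨(hsub l).2.2 hx, Finset.disjoint_left.mp hl (Finset.mem_union_right _ hx)⟩
  -- (1)
  have h1 : ∀ n : ℕ, ∀ w ∈ W \ X, ρ w = n → Reach T (W \ X) (a l) w := by
    intro n
    induction n using Nat.strong_induction_on with
    | _ n ih =>
      intro w hw hn
      have hwW := (Finset.mem_sdiff.mp hw).1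
      rcases Nat.eq_zero_or_pos n with hz | hp
      · obtain ⟨x, hx, hxw⟩ := h0 w hwW (hn.trans hz) l
        have hxx : Reach T (W \ X) (a l) x := by
          by_cases hxa : x = a l
          · rw [hxa]; exact Relation.ReflTransGen.refl
          · exact Relation.ReflTransGen.single ⟨hA _ (hab l).1, hA _ hx, hsrc l x hx hxa⟩
        exact Relation.ReflTransGen.tail hxx ⟨hA _ hx, hw, hxw⟩
      · have hk := hpos w hwW (by omega)
        have : ∃ y ∈ (W.filter fun u => T u w ∧ ρ u < ρ w), y ∉ X := by
          by_contra hne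
          push Not at hne
          have := Finset.card_le_card (show (W.filter fun u => T u w ∧ ρ u < ρ w) ⊆ X from hne)
          omega
        obtain ⟨y, hy, hyX⟩ := this
        rw [Finset.mem_filter] at hy
        have hyW : y ∈ W \ X := Finset.mem_sdiff.mpr ⟨hy.1, hyX⟩
        exact Relation.ReflTransGen.tail (ih (ρ y) (by omega) y hyW rfl) ⟨hyW, hw, hy.2.1⟩
  -- (2)
  have h2 : ∀ n : ℕ, ∀ w ∈ W \ X, ρ' w = n → Reach T (W \ X) w (b l) := by
    intro n
    induction n using Nat.strong_induction_on with
    | _ n ih =>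
      intro w hw hn
      have hwW := (Finset.mem_sdiff.mp hw).1
      rcases Nat.eq_zero_or_pos n with hz | hp
      · obtain ⟨x, hx, hxw⟩ := h0' w hwW (hn.trans hz) l
        have hxx : Reach T (W \ X) x (b l) := by
          by_cases hxa : x = b l
          · rw [hxa]; exact Relation.ReflTransGen.refl
          · exact Relation.ReflTransGen.single ⟨hB _ hx, hB _ (hab l).2, hsnk l x hx hxa⟩
        exact Relation.ReflTransGen.head ⟨hw, hB _ hx, hxw⟩ hxx
      · have hk := hpos' w hwW (by omega)
        have : ∃ y ∈ (W.filter fun u => T w u ∧ ρ' u < ρ' w), y ∉ X := by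
          by_contra hne
          push Not at hne
          have := Finset.card_le_card (show (W.filter fun u => T w u ∧ ρ' u < ρ' w) ⊆ X from hne)
          omega
        obtain ⟨y, hy, hyX⟩ := this
        rw [Finset.mem_filter] at hy
        have hyW : y ∈ W \ X := Finset.mem_sdiff.mpr ⟨hy.1, hyX⟩
        exact Relation.ReflTransGen.head ⟨hw, hyW, hy.2.1⟩ (ih (ρ' y) (by omega) y hyW rfl)
  exact ((h2 _ u hu rfl).trans (reach_mono hPP (hP l))).trans (h1 _ v hv rfl)

end Pool.Agent.N129.PT
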